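import Mathlib
import Pool.Agent.H74.PP.Targets
import Pool.Agent.H74.PP.Basic

/-!
# PX module PL: lower bound for the prime side
-/

set_option autoImplicit false

open Complex MeasureTheory Set Filter

namespace Pool.Agent.H90.PP

open Pool.Agent.H74.PP
open Pool.Agent.H23.GLH (PrimChar)
open Pool.Agent.H28.MZ (co)

theorem cont_pow {n : ℕ} (hn : n ≠ 0) : Continuous (fun t : ℝ => (n : ℂ) ^ (-((t : ℂ) * I))) := by
  have h : Continuous (fun t : ℝ => -((t : ℂ) * I)) := by fun_prop
  exact Continuous.const_cpow h (Or.inl (by exact_mod_cast hn))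

theorem cont_Pr (π : PrimChar) (l : ℝ) : Continuous (fun t => Pr π l t) := by
  unfold Pr
  refine continuous_const.mul (continuous_finsetSum _ fun n hn => ?_)
  have : n ≠ 0 := by rw [Finset.mem_Icc] at hn; omega
  exact continuous_const.mul (cont_pow this)

theorem cont_Pp (π : PrimChar) (l : ℝ) : Continuous (fun t => Pp π l t) := by
  unfold Pp
  refine continuous_const.mul (continuous_finsetSum _ fun n hn => ?_)
  have : n ≠ 0 := by rw [Finset.mem_filter, Finset.mem_Icc] at hn; omega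
  exact continuous_const.mul (cont_pow this)

theorem cont_comp {f : ℝ → ℂ} (hf : Continuous f) (a τ : ℝ) :
    Continuous (fun t => f (a * t + τ)) := hf.comp (by fun_prop)

/-- the square of the norm of a real combination -/
theorem norm_sq_comb {ι : Type} [Fintype ι] (e : ι → ℝ) (p : ι → ℂ) :
    ‖∑ i, (e i : ℂ) * p i‖ ^ 2 = ∑ i, ∑ j, e i * e j * (p i * (starRingEnd ℂ) (p j)).re := by
  have h1 : ((‖∑ i, (e i : ℂ) * p i‖ ^ 2 : ℝ) : ℂ) =
      (∑ i, (e i : ℂ) * p i) * (starRingEnd ℂ) (∑ i, (e i : ℂ) * p i) := by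
    rw [Complex.mul_conj, Complex.normSq_eq_norm_sq]
  have h2 : ‖∑ i, (e i : ℂ) * p i‖ ^ 2 =
      ((∑ i, (e i : ℂ) * p i) * (starRingEnd ℂ) (∑ i, (e i : ℂ) * p i)).re := by
    rw [← h1, Complex.ofReal_re]
  rw [h2, map_sum, Finset.sum_mul_sum, Complex.re_sum]
  refine Finset.sum_congr rfl fun i _ => ?_
  rw [Complex.re_sum]
  refine Finset.sum_congr rfl fun j _ => ?_
  rw [map_mul, Complex.conj_ofReal]
  have : (e i : ℂ) * p i * ((e j : ℂ) * (starRingEnd ℂ) (p j)) =
      ((e i * e j : ℝ) : ℂ) * (p i * (starRingEnd ℂ) (p j)) := by push_cast; ring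
  rw [this, Complex.re_ofReal_mul]

theorem pl (hPR : T_PR) (hPD : T_PD) (hPX : T_PX) (hPE : T_PE) : T_PL := by
  intro ι _ _ F δ hδ hδa
  classical
  set n : ℝ := (Fintype.card ι : ℝ) with hn
  have hn1 : 1 ≤ n := by
    rw [hn]; exact_mod_cast Fintype.card_pos
  set e : ℝ := 1 / (2000 * n ^ 2) with he
  have he0 : 0 < e := by positivity
  -- collect the thresholds
  have ePR : ∀ i, ∀ᶠ T in atTop, ∀ τ : ℝ, ∫ t in T..(2 * T),
      ‖Pr (F.π i) (δ * Real.log T / F.a i) (F.a i * t + τ) -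
      Pp (F.π i) (δ * Real.log T / F.a i) (F.a i * t + τ)‖ ^ 2 ≤ e * T := by
    intro i
    obtain ⟨T0, h⟩ := hPR.2 (F.π i) (F.a i) δ e (F.a_pos i) hδ
      ((hδa i).trans (by have := F.a_pos i; linarith)) he0
    filter_upwards [eventually_ge_atTop T0] with T hT τ using h T τ hT
  have ePD : ∀ i, ∀ᶠ T in atTop, 1 / 10 ≤ (Qr (F.π i) (F.π i) (δ * Real.log T / F.a i) 0).re := by
    intro i
    obtain ⟨l0, h⟩ := hPD (F.π i)
    have hlim : Tendsto (fun T => δ * Real.log T / F.a i) atTop atTop :=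
      (Real.tendsto_log_atTop.const_mul_atTop hδ).atTop_div_const (F.a_pos i)
    filter_upwards [hlim.eventually_ge_atTop l0] with T hT using (h _ hT).1
  have ePE : ∀ i j, ∀ᶠ T in atTop, ∀ τ τ' : ℝ,
      ‖(∫ t in (5 * T / 4)..(7 * T / 4), Pp (F.π i) (δ * Real.log T / F.a i) (F.a i * t + τ) *
      (starRingEnd ℂ) (Pp (F.π j) (δ * Real.log T / F.a i) (F.a i * t + τ'))) -
        T / 2 * Qr (F.π i) (F.π j) (δ * Real.log T / F.a i) (τ - τ')‖ ≤ e * T := by
    intro i j
    obtain ⟨T0, h⟩ := hPE (F.π i) (F.π j) (F.a i) δ e (F.a_pos i) hδ (hδa i) he0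
    filter_upwards [eventually_ge_atTop T0] with T hT τ τ' using h T τ τ' hT
  have ePX : ∀ i j, F.a i ≠ F.a j → ∀ᶠ T in atTop, ∀ τ τ' : ℝ,
      ‖∫ t in (5 * T / 4)..(7 * T / 4), Pp (F.π i) (δ * Real.log T / F.a i) (F.a i * t + τ) *
      (starRingEnd ℂ) (Pp (F.π j) (δ * Real.log T / F.a j) (F.a j * t + τ'))‖ ≤ e * T := by
    intro i j hij
    obtain ⟨T0, h⟩ := hPX (F.π i) (F.π j) (F.a i) (F.a j) δ e (F.a_pos i) (F.a_pos j) hij hδ
      (hδa i) (hδa j) he0
    filter_upwards [eventually_ge_atTop T0] with T hT τ τ' using h T τ τ' hT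
  have ePX' : ∀ i j, ∀ᶠ T in atTop, F.a i ≠ F.a j → ∀ τ τ' : ℝ,
      ‖∫ t in (5 * T / 4)..(7 * T / 4), Pp (F.π i) (δ * Real.log T / F.a i) (F.a i * t + τ) *
      (starRingEnd ℂ) (Pp (F.π j) (δ * Real.log T / F.a j) (F.a j * t + τ'))‖ ≤ e * T := by
    intro i j
    by_cases hij : F.a i = F.a j
    · exact Eventually.of_forall fun T h => absurd hij h
    · filter_upwards [ePX i j hij] with T hT _ using hT
  have hall := ((eventually_all.2 ePR).and (eventually_all.2 ePD)).and
    ((eventually_all.2 fun i => eventually_all.2 (ePE i)).and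
      (eventually_all.2 fun i => eventually_all.2 (ePX' i)))
  obtain ⟨T0, hT0⟩ := eventually_atTop.1 hall
  refine ⟨max T0 1, fun T τ hT hO => ?_⟩
  obtain ⟨⟨h1, h2⟩, h3, h4⟩ := hT0 T ((le_max_left _ _).trans hT)
  have hT1 : 1 ≤ T := (le_max_right _ _).trans hT
  have hTpos : 0 < T := by linarith
  set D := δ * Real.log T with hD
  set r : ι → ℝ → ℂ := fun i t => Pr (F.π i) (D / F.a i) (F.a i * t + τ i) with hr
  set p : ι → ℝ → ℂ := fun i t => Pp (F.π i) (D / F.a i) (F.a i * t + τ i) with hp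
  have hrc : ∀ i, Continuous (r i) := fun i => cont_comp (cont_Pr _ _) _ _
  have hpc : ∀ i, Continuous (p i) := fun i => cont_comp (cont_Pp _ _) _ _
  have hIle : 5 * T / 4 ≤ 7 * T / 4 := by linarith
  set G : ℝ → ℂ := fun t => ∑ i, (F.ε i : ℂ) * p i t with hG
  have hGc : Continuous G := continuous_finsetSum _ fun i _ => continuous_const.mul (hpc i)
  set R : ℝ → ℂ := fun t => ∑ i, (F.ε i : ℂ) * r i t with hR
  have hRc : Continuous R := continuous_finsetSum _ fun i _ => continuous_const.mul (hrc i)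
  have hPR' : ∀ t, F.P τ D t = R t := fun t => rfl
  set J : ι → ι → ℂ := fun i j => ∫ t in (5 * T / 4)..(7 * T / 4),
    p i t * (starRingEnd ℂ) (p j t) with hJ
  have hcc : ∀ i j, Continuous (fun t => p i t * (starRingEnd ℂ) (p j t)) := fun i j =>
    (hpc i).mul (Complex.continuous_conj.comp (hpc j))
  -- expansion of the square
  have hsq : ∫ t in (5 * T / 4)..(7 * T / 4), ‖G t‖ ^ 2 =
      ∑ i, ∑ j, F.ε i * F.ε j * (J i j).re := by
    have e1 : ∀ t, ‖G t‖ ^ 2 = ∑ i, ∑ j, F.ε i * F.ε j *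
        (p i t * (starRingEnd ℂ) (p j t)).re := fun t => norm_sq_comb _ _
    have hre : ∀ i j, Continuous (fun t => F.ε i * F.ε j *
        (p i t * (starRingEnd ℂ) (p j t)).re) := fun i j =>
      continuous_const.mul (Complex.continuous_re.comp (hcc i j))
    simp only [e1]
    rw [intervalIntegral.integral_finsetSum fun i _ =>
      (continuous_finsetSum _ fun j _ => hre i j).intervalIntegrable _ _]
    refine Finset.sum_congr rfl fun i _ => ?_
    rw [intervalIntegral.integral_finsetSum fun j _ => (hre i j).intervalIntegrable _ _]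
    refine Finset.sum_congr rfl fun j _ => ?_
    rw [intervalIntegral.integral_const_mul]
    congr 1
    exact ContinuousLinearMap.intervalIntegral_comp_comm Complex.reCLM
      ((hcc i j).intervalIntegrable _ _)
  have hεε : ∀ i j, F.ε i * F.ε j = 1 ∨ F.ε i * F.ε j = -1 := by
    intro i j
    rcases F.ε_eq i with a | a <;> rcases F.ε_eq j with b | b <;> simp [a, b]
  have hre_le : ∀ i j (z : ℂ) (B : ℝ), ‖z‖ ≤ B → -B ≤ F.ε i * F.ε j * z.re := by
    intro i j z B hz
    have h5 := (Complex.abs_re_le_norm z).trans hz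
    have h6 := abs_le.1 h5
    rcases hεε i j with a | a <;> rw [a] <;> linarith [h6.1, h6.2]
  have hlow : ∀ i j, (if i = j then T / 20 + T / (80 * n ^ 2) else 0) -
      (T / (80 * n ^ 2) + e * T) ≤ F.ε i * F.ε j * (J i j).re := by
    intro i j
    have hq0 : 0 ≤ T / (80 * n ^ 2) := by positivity
    by_cases hij : i = j
    · subst hij
      rw [if_pos rfl]
      have h5 := h3 i i (τ i) (τ i)
      rw [sub_self] at h5
      have h6 := hre_le i i _ _ h5
      have h7 := h2 i
      have hee : F.ε i * F.ε i = 1 := by rcases F.ε_eq i with a | a <;> simp [a]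
      rw [hee, one_mul, Complex.sub_re] at h6
      have h8 : ((T : ℂ) / 2 * Qr (F.π i) (F.π i) (D / F.a i) 0).re =
          T / 2 * (Qr (F.π i) (F.π i) (D / F.a i) 0).re := by
        have : (T : ℂ) / 2 = ((T / 2 : ℝ) : ℂ) := by push_cast; ring
        rw [this, Complex.re_ofReal_mul]
      rw [h8] at h6
      rw [hee, one_mul]
      have h9 : T / 2 * (1 / 10) ≤ T / 2 * (Qr (F.π i) (F.π i) (D / F.a i) 0).re :=
        mul_le_mul_of_nonneg_left h7 (by positivity)
      have h10 : -(e * T) ≤ (J i i).re - T / 2 * (Qr (F.π i) (F.π i) (D / F.a i) 0).re := h6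
      linarith
    · rw [if_neg hij]
      by_cases ha : F.a i = F.a j
      · have h5 := h3 i j (τ i) (τ j)
        have h6 := hre_le i j _ _ h5
        have h7 := hO i j hij ha
        rw [Complex.sub_re] at h6
        have h8 : ((T : ℂ) / 2 * Qr (F.π i) (F.π j) (D / F.a i) (τ i - τ j)).re =
            T / 2 * (Qr (F.π i) (F.π j) (D / F.a i) (τ i - τ j)).re := by
          have : (T : ℂ) / 2 = ((T / 2 : ℝ) : ℂ) := by push_cast; ring
          rw [this, Complex.re_ofReal_mul]
        rw [h8] at h6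
        have hJe : (∫ t in (5 * T / 4)..(7 * T / 4), Pp (F.π i) (D / F.a i) (F.a i * t + τ i) *
            (starRingEnd ℂ) (Pp (F.π j) (D / F.a i) (F.a i * t + τ j))) = J i j := by
          simp only [hJ, hp, ha]
        rw [hJe, mul_sub] at h6
        have h9 : T / 2 * -(1 / (40 * n ^ 2)) ≤
            T / 2 * (F.ε i * F.ε j * (Qr (F.π i) (F.π j) (D / F.a i) (τ i - τ j)).re) :=
          mul_le_mul_of_nonneg_left h7 (by positivity)
        have h10 : T / 2 * -(1 / (40 * n ^ 2)) = -(T / (80 * n ^ 2)) := by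
          field_simp; ring
        rw [h10] at h9
        have h11 : F.ε i * F.ε j * (T / 2 * (Qr (F.π i) (F.π j) (D / F.a i) (τ i - τ j)).re) =
          T / 2 * (F.ε i * F.ε j * (Qr (F.π i) (F.π j) (D / F.a i) (τ i - τ j)).re) := by ring
        rw [h11] at h6
        linarith
      · have h5 := h4 i j ha (τ i) (τ j)
        have h6 : -(e * T) ≤ F.ε i * F.ε j * (J i j).re := hre_le i j _ _ h5
        linarith
  have hGlow : 3 * T / 80 - n ^ 2 * (e * T) ≤ ∫ t in (5 * T / 4)..(7 * T / 4), ‖G t‖ ^ 2 := by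
    rw [hsq]
    refine le_trans ?_ (Finset.sum_le_sum fun i _ => Finset.sum_le_sum fun j _ => hlow i j)
    simp only [Finset.sum_sub_distrib, Finset.sum_ite_eq, Finset.mem_univ, if_true,
      Finset.sum_const, Finset.card_univ, nsmul_eq_mul]
    rw [← hn]
    have h5 : n * (T / 20 + T / (80 * n ^ 2)) - n * (n * (T / (80 * n ^ 2) + e * T)) =
        n * T / 20 + T / (80 * n) - T / 80 - n ^ 2 * (e * T) := by
      field_simp
      ring
    rw [h5]
    have h6 : 0 ≤ T / (80 * n) := by positivity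
    have h7 : T ≤ n * T := le_mul_of_one_le_left hTpos.le hn1
    linarith
  -- the difference
  have hdiff : ∫ t in (5 * T / 4)..(7 * T / 4), ‖R t - G t‖ ^ 2 ≤ n ^ 2 * (e * T) := by
    have hdi : ∀ i, Continuous (fun t => ‖r i t - p i t‖ ^ 2) := fun i =>
      ((hrc i).sub (hpc i)).norm.pow 2
    have h5 : ∀ t, ‖R t - G t‖ ^ 2 ≤ n * ∑ i, ‖r i t - p i t‖ ^ 2 := by
      intro t
      have h6 : R t - G t = ∑ i, (F.ε i : ℂ) * (r i t - p i t) := by
        simp only [hR, hG, mul_sub, Finset.sum_sub_distrib]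
      have h7 : ‖R t - G t‖ ≤ ∑ i, ‖r i t - p i t‖ := by
        rw [h6]
        refine (norm_sum_le _ _).trans (Finset.sum_le_sum fun i _ => ?_)
        rw [norm_mul, Complex.norm_real]
        rcases F.ε_eq i with a | a <;> simp [a]
      calc ‖R t - G t‖ ^ 2 ≤ (∑ i, ‖r i t - p i t‖) ^ 2 := by gcongr
        _ ≤ n * ∑ i, ‖r i t - p i t‖ ^ 2 := by
            have := sq_sum_le_card_mul_sum_sq (s := Finset.univ) (f := fun i => ‖r i t - p i t‖)
            rwa [Finset.card_univ] at this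
    have h6 : ∀ i, ∫ t in (5 * T / 4)..(7 * T / 4), ‖r i t - p i t‖ ^ 2 ≤ e * T := by
      intro i
      refine le_trans ?_ (h1 i (τ i))
      refine intervalIntegral.integral_mono_interval (by linarith) hIle (by linarith) ?_
        ((hdi i).intervalIntegrable _ _)
      exact Eventually.of_forall fun t => by positivity
    calc ∫ t in (5 * T / 4)..(7 * T / 4), ‖R t - G t‖ ^ 2
        ≤ ∫ t in (5 * T / 4)..(7 * T / 4), n * ∑ i, ‖r i t - p i t‖ ^ 2 := by
          refine intervalIntegral.integral_mono hIle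
            ((hRc.sub hGc).norm.pow 2 |>.intervalIntegrable _ _)
            ((continuous_const.mul (continuous_finsetSum _ fun i _ => hdi i)).intervalIntegrable
              _ _) h5
      _ = n * ∑ i, ∫ t in (5 * T / 4)..(7 * T / 4), ‖r i t - p i t‖ ^ 2 := by
          rw [intervalIntegral.integral_const_mul, intervalIntegral.integral_finsetSum
            fun i _ => (hdi i).intervalIntegrable _ _]
      _ ≤ n * ∑ _i : ι, e * T := by
          refine mul_le_mul_of_nonneg_left (Finset.sum_le_sum fun i _ => h6 i) (by linarith)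
      _ = n ^ 2 * (e * T) := by
          simp only [Finset.sum_const, Finset.card_univ, nsmul_eq_mul]
          rw [← hn]; ring
  -- conclusion
  have hpt : ∀ t, 5 / 6 * ‖G t‖ ^ 2 - 5 * ‖R t - G t‖ ^ 2 ≤ ‖F.P τ D t‖ ^ 2 := by
    intro t
    rw [hPR' t]
    have h5 : ‖G t‖ ≤ ‖R t‖ + ‖R t - G t‖ := by
      have : G t = R t - (R t - G t) := by ring
      calc ‖G t‖ = ‖R t - (R t - G t)‖ := by rw [← this]
        _ ≤ _ := norm_sub_le _ _
    have a0 : 0 ≤ ‖G t‖ := norm_nonneg _
    have a1 : 0 ≤ ‖R t‖ := norm_nonneg _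
    have a2 : 0 ≤ ‖R t - G t‖ := norm_nonneg _
    nlinarith [sq_nonneg (‖R t‖ - 5 * ‖R t - G t‖), mul_self_le_mul_self a0 h5]
  have hPc : Continuous (fun t => ‖F.P τ D t‖ ^ 2) := hRc.norm.pow 2
  have hfin : ∫ t in (5 * T / 4)..(7 * T / 4), (5 / 6 * ‖G t‖ ^ 2 - 5 * ‖R t - G t‖ ^ 2) ≤
      ∫ t in (5 * T / 4)..(7 * T / 4), ‖F.P τ D t‖ ^ 2 := by
    refine intervalIntegral.integral_mono hIle ?_ (hPc.intervalIntegrable _ _) hpt
    exact ((continuous_const.mul (hGc.norm.pow 2)).sub
      (continuous_const.mul ((hRc.sub hGc).norm.pow 2))).intervalIntegrable _ _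
  have hc1 : Continuous (fun t => 5 / 6 * ‖G t‖ ^ 2) := continuous_const.mul (hGc.norm.pow 2)
  have hc2 : Continuous (fun t => 5 * ‖R t - G t‖ ^ 2) :=
    continuous_const.mul ((hRc.sub hGc).norm.pow 2)
  rw [intervalIntegral.integral_sub (hc1.intervalIntegrable _ _) (hc2.intervalIntegrable _ _),
    intervalIntegral.integral_const_mul, intervalIntegral.integral_const_mul] at hfin
  have hne : n ^ 2 * (e * T) = T / 2000 := by
    rw [he]; field_simp
  rw [hne] at hGlow hdiff
  linarith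

end Pool.Agent.H90.PP
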