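import Mathlib
import Pool.Agent.H74.PP.Targets
import Pool.Agent.H74.PP.Basic

/-!
# PX module SO: sums over zeros off the line
-/

set_option autoImplicit false

open Complex MeasureTheory Set

namespace Pool.Agent.H90.PP

open Pool.Agent.H74.PP
open Pool.Agent.H23.GLH (PrimChar)

theorem layer (Z : Finset ℂ) (m h : ℂ → ℝ) (hm : ∀ ρ, 0 ≤ m ρ)
    (hh : ∀ ρ ∈ Z, 0 ≤ h ρ ∧ h ρ ≤ 1 / 2) (L : ℝ) (hL : 0 < L) (g : ℝ → ℝ)
    (hg0 : ∀ y, 0 ≤ y → 0 ≤ g y) (hg : ∀ y y', 0 ≤ y → y ≤ y' → g y ≤ g y') :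
    ∑ ρ ∈ Z, m ρ * g (L * h ρ) ≤ ∑ j ∈ Finset.range (⌊L / 2⌋₊ + 1), g (j + 1) *
      ∑ ρ ∈ Z.filter (fun ρ => (j : ℝ) / L ≤ h ρ), m ρ := by
  have e : ∑ j ∈ Finset.range (⌊L / 2⌋₊ + 1), g (j + 1) *
      ∑ ρ ∈ Z.filter (fun ρ => (j : ℝ) / L ≤ h ρ), m ρ =
      ∑ ρ ∈ Z, ∑ j ∈ Finset.range (⌊L / 2⌋₊ + 1),
        (if (j : ℝ) / L ≤ h ρ then g (j + 1) * m ρ else 0) := by
    rw [Finset.sum_comm]
    refine Finset.sum_congr rfl fun j _ => ?_
    rw [Finset.sum_filter, Finset.mul_sum]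
    refine Finset.sum_congr rfl fun ρ _ => ?_
    split_ifs <;> simp
  rw [e]
  refine Finset.sum_le_sum fun ρ hρ => ?_
  obtain ⟨h0, h1⟩ := hh ρ hρ
  have hLh : 0 ≤ L * h ρ := by positivity
  have hj : ⌊L * h ρ⌋₊ ∈ Finset.range (⌊L / 2⌋₊ + 1) := by
    rw [Finset.mem_range, Nat.lt_succ_iff]
    exact Nat.floor_le_floor (by nlinarith)
  have hle : ((⌊L * h ρ⌋₊ : ℝ)) / L ≤ h ρ := by
    rw [div_le_iff₀ hL]
    have := Nat.floor_le hLh
    linarith
  refine le_trans ?_ (Finset.single_le_sum (f := fun j : ℕ =>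
    (if (j : ℝ) / L ≤ h ρ then g (j + 1) * m ρ else 0)) (fun j _ => ?_) hj)
  · rw [if_pos hle, mul_comm]
    refine mul_le_mul_of_nonneg_right ?_ (hm ρ)
    exact hg _ _ hLh (Nat.lt_floor_add_one _).le
  · split_ifs
    · exact mul_nonneg (hg0 _ (by positivity)) (hm ρ)
    · exact le_rfl

theorem so (hSD : T_SD) : T_SO := by
  intro π
  obtain ⟨C0, c1, T0, hC0, hc1, hSD⟩ := hSD π
  set c0 : ℝ := min c1 1 with hc0d
  have hc0 : 0 < c0 := lt_min hc1 one_pos
  have hc01 : c0 ≤ 1 := min_le_right _ _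
  have hc0c1 : c0 ≤ c1 := min_le_left _ _
  set c : ℝ := c0 / 2 with hcd
  have hc : 0 < c := by positivity
  have hr : Real.exp (-c) < 1 := by rw [Real.exp_lt_one_iff]; linarith
  have hsum : Summable (fun n : ℕ => ((n + 1 : ℕ) : ℝ) ^ 2 * Real.exp (-c) ^ (n + 1)) := by
    have h := summable_pow_mul_geometric_of_norm_lt_one (R := ℝ) 2 (r := Real.exp (-c))
      (by rw [Real.norm_eq_abs, abs_of_pos (Real.exp_pos _)]; exact hr)
    exact (summable_nat_add_iff 1).2 h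
  set S : ℝ := ∑' n : ℕ, ((n + 1 : ℕ) : ℝ) ^ 2 * Real.exp (-c) ^ (n + 1) with hSd
  have hS0 : 0 ≤ S := tsum_nonneg fun n => by positivity
  refine ⟨12 * C0 * Real.exp (2 * c) * S + 1, c, by positivity, hc, fun δ hδ hδc => ?_⟩
  refine ⟨max (max (2 * T0) 2) (Real.exp 1), fun X τ l hX hτ hl0 hl => ?_⟩
  have hX1 : 2 * T0 ≤ X := (le_max_left _ _).trans ((le_max_left _ _).trans hX)
  have hX2 : 2 ≤ X := (le_max_right _ _).trans ((le_max_left _ _).trans hX)
  have hX3 : Real.exp 1 ≤ X := (le_max_right _ _).trans hX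
  have hL1 : 1 ≤ Real.log X := by
    rw [Real.le_log_iff_exp_le (by linarith)]; exact hX3
  set L := Real.log X with hLd
  have hL0 : 0 < L := by linarith
  have hτ' := abs_le.1 hτ
  -- one window
  have hwin : ∀ T : ℝ, 4 / 5 * X ≤ T → T ≤ 3 / 2 * X →
      ∑ ρ ∈ ZF π T (2 * T), mu π ρ * ((l * |ρ.re - 1 / 2|) ^ 2 *
        Real.exp (l * |ρ.re - 1 / 2|)) ≤ 6 * C0 * Real.exp (2 * c) * S * (δ ^ 2 * X * L) := by
    intro T hT1 hT2
    have hTpos : 0 < T := by linarith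
    have hT1' : 1 ≤ T := by linarith
    have hTT0 : T0 ≤ T := by linarith
    set g : ℝ → ℝ := fun y => (δ * y) ^ 2 * Real.exp (δ * y) with hgd
    have hg0 : ∀ y, 0 ≤ y → 0 ≤ g y := fun y _ => by positivity
    have hg : ∀ y y', 0 ≤ y → y ≤ y' → g y ≤ g y' := by
      intro y y' hy hyy
      simp only [hgd]
      have : δ * y ≤ δ * y' := mul_le_mul_of_nonneg_left hyy hδ.le
      have h0 : 0 ≤ δ * y := by positivity
      gcongr
    have hZ : ∀ ρ ∈ ZF π T (2 * T), 0 ≤ |ρ.re - 1 / 2| ∧ |ρ.re - 1 / 2| ≤ 1 / 2 := by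
      intro ρ hρ
      rw [mem_ZF hTpos] at hρ
      refine ⟨abs_nonneg _, ?_⟩
      rw [abs_le]
      constructor <;> linarith [hρ.1, hρ.2.1]
    have hlayer := layer (ZF π T (2 * T)) (mu π) (fun ρ => |ρ.re - 1 / 2|) (mu_nonneg π) hZ
      L hL0 g hg0 hg
    have hfirst : ∑ ρ ∈ ZF π T (2 * T), mu π ρ * ((l * |ρ.re - 1 / 2|) ^ 2 *
        Real.exp (l * |ρ.re - 1 / 2|)) ≤ ∑ ρ ∈ ZF π T (2 * T), mu π ρ *
          g (L * |ρ.re - 1 / 2|) := by
      refine Finset.sum_le_sum fun ρ _ => ?_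
      refine mul_le_mul_of_nonneg_left ?_ (mu_nonneg π ρ)
      simp only [hgd]
      have h1 : l * |ρ.re - 1 / 2| ≤ δ * (L * |ρ.re - 1 / 2|) := by
        rw [← mul_assoc]
        exact mul_le_mul_of_nonneg_right hl (abs_nonneg _)
      have h0 : 0 ≤ l * |ρ.re - 1 / 2| := by positivity
      gcongr
    refine hfirst.trans (hlayer.trans ?_)
    have hterm : ∀ j ∈ Finset.range (⌊L / 2⌋₊ + 1), g (j + 1) *
        ∑ ρ ∈ (ZF π T (2 * T)).filter (fun ρ => (j : ℝ) / L ≤ |ρ.re - 1 / 2|), mu π ρ ≤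
        6 * C0 * Real.exp (2 * c) * (δ ^ 2 * X * L) *
          (((j + 1 : ℕ) : ℝ) ^ 2 * Real.exp (-c) ^ (j + 1)) := by
      intro j hj
      have hj' : (j : ℝ) ≤ L / 2 := by
        have : j ≤ ⌊L / 2⌋₊ := by rw [Finset.mem_range] at hj; omega
        exact (Nat.cast_le.2 this).trans (Nat.floor_le (by positivity))
      have hjL : (j : ℝ) / L ≤ 1 / 2 := by
        rw [div_le_iff₀ hL0]; linarith
      have hjL0 : 0 ≤ (j : ℝ) / L := by positivity
      have h1 := hSD T (j / L) hTT0 hjL0 hjL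
      -- bound for the power of `T`
      have h2 : T ^ (1 - c1 * (j / L)) ≤ 3 * X * Real.exp (-(c0 * j)) := by
        have e1 : T ^ (1 - c1 * (j / L)) ≤ T ^ (1 - c0 * (j / L)) := by
          refine Real.rpow_le_rpow_of_exponent_le hT1' ?_
          have := mul_le_mul_of_nonneg_right hc0c1 hjL0
          linarith
        have e2 : T ^ (1 - c0 * (j / L)) = T * T ^ (-(c0 * (j / L))) := by
          rw [sub_eq_add_neg, Real.rpow_add hTpos, Real.rpow_one]
        have e3 : T ^ (-(c0 * (j / L))) ≤ (4 / 5 * X) ^ (-(c0 * (j / L))) :=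
          Real.rpow_le_rpow_of_nonpos (by linarith) hT1 (by
            have : 0 ≤ c0 * (j / L) := by positivity
            linarith)
        have e4 : (4 / 5 * X) ^ (-(c0 * (j / L))) =
            (4 / 5 : ℝ) ^ (-(c0 * (j / L))) * X ^ (-(c0 * (j / L))) :=
          Real.mul_rpow (by norm_num) (by linarith)
        have e5 : X ^ (-(c0 * (j / L))) = Real.exp (-(c0 * j)) := by
          rw [Real.rpow_def_of_pos (by linarith), ← hLd]
          congr 1
          field_simp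
        have e6 : (4 / 5 : ℝ) ^ (-(c0 * (j / L))) ≤ 2 := by
          have hx : -(1 : ℝ) ≤ -(c0 * (j / L)) := by
            have : c0 * (j / L) ≤ 1 * (1 / 2) := by gcongr
            linarith
          calc (4 / 5 : ℝ) ^ (-(c0 * (j / L))) ≤ (4 / 5 : ℝ) ^ (-(1 : ℝ)) :=
                Real.rpow_le_rpow_of_exponent_ge (by norm_num) (by norm_num) hx
            _ ≤ 2 := by rw [Real.rpow_neg_one]; norm_num
        calc T ^ (1 - c1 * (j / L)) ≤ T * T ^ (-(c0 * (j / L))) := e1.trans e2.le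
          _ ≤ (3 / 2 * X) * (2 * Real.exp (-(c0 * j))) := by
              have : T ^ (-(c0 * (j / L))) ≤ 2 * Real.exp (-(c0 * j)) := by
                rw [← e5]
                refine e3.trans ?_
                rw [e4]
                exact mul_le_mul_of_nonneg_right e6 (by positivity)
              have h0 : 0 ≤ T ^ (-(c0 * (j / L))) := by positivity
              exact mul_le_mul hT2 this h0 (by linarith)
          _ = 3 * X * Real.exp (-(c0 * j)) := by ring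
      have h3 : Real.log T ≤ 2 * L := by
        have : T ≤ X ^ 2 := by nlinarith
        calc Real.log T ≤ Real.log (X ^ 2) := Real.log_le_log hTpos this
          _ = 2 * L := by rw [Real.log_pow, hLd]; norm_num
      have h3' : 0 ≤ Real.log T := Real.log_nonneg hT1'
      have h4 : ∑ ρ ∈ (ZF π T (2 * T)).filter (fun ρ => (j : ℝ) / L ≤ |ρ.re - 1 / 2|), mu π ρ ≤
          6 * C0 * (X * L) * Real.exp (-(c0 * j)) := by
        refine h1.trans ?_
        calc C0 * T ^ (1 - c1 * (j / L)) * Real.log T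
            ≤ C0 * (3 * X * Real.exp (-(c0 * j))) * (2 * L) := by
              have : 0 ≤ C0 * (3 * X * Real.exp (-(c0 * j))) := by positivity
              exact mul_le_mul (mul_le_mul_of_nonneg_left h2 hC0.le) h3 h3' this
          _ = 6 * C0 * (X * L) * Real.exp (-(c0 * j)) := by ring
      have hgj : g (j + 1) = δ ^ 2 * (((j + 1 : ℕ) : ℝ) ^ 2) * Real.exp (δ * (j + 1)) := by
        simp only [hgd]; push_cast; ring
      have h5 : Real.exp (δ * (j + 1)) * Real.exp (-(c0 * j)) ≤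
          Real.exp (2 * c) * Real.exp (-c) ^ (j + 1) := by
        rw [← Real.exp_nat_mul, ← Real.exp_add, ← Real.exp_add]
        refine Real.exp_le_exp.2 ?_
        push_cast
        have h6 : δ * (j + 1) ≤ c * (j + 1) := by
          have : (0:ℝ) ≤ j + 1 := by positivity
          exact mul_le_mul_of_nonneg_right hδc this
        have h7 : c0 = 2 * c := by rw [hcd]; ring
        rw [h7]
        nlinarith
      calc g (j + 1) * ∑ ρ ∈ (ZF π T (2 * T)).filter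
              (fun ρ => (j : ℝ) / L ≤ |ρ.re - 1 / 2|), mu π ρ
          ≤ g (j + 1) * (6 * C0 * (X * L) * Real.exp (-(c0 * j))) :=
            mul_le_mul_of_nonneg_left h4 (hg0 _ (by positivity))
        _ = 6 * C0 * (δ ^ 2 * X * L) * ((j + 1 : ℕ) : ℝ) ^ 2 *
              (Real.exp (δ * (j + 1)) * Real.exp (-(c0 * j))) := by rw [hgj]; ring
        _ ≤ 6 * C0 * (δ ^ 2 * X * L) * ((j + 1 : ℕ) : ℝ) ^ 2 *
              (Real.exp (2 * c) * Real.exp (-c) ^ (j + 1)) := by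
            refine mul_le_mul_of_nonneg_left h5 ?_
            have : 0 ≤ X := by linarith
            positivity
        _ = _ := by ring
    refine (Finset.sum_le_sum hterm).trans ?_
    rw [← Finset.mul_sum]
    have hfin : ∑ j ∈ Finset.range (⌊L / 2⌋₊ + 1),
        (((j + 1 : ℕ) : ℝ) ^ 2 * Real.exp (-c) ^ (j + 1)) ≤ S :=
      hsum.sum_le_tsum _ (fun j _ => by positivity)
    have hpos : 0 ≤ 6 * C0 * Real.exp (2 * c) * (δ ^ 2 * X * L) := by
      have : 0 ≤ X := by linarith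
      positivity
    calc 6 * C0 * Real.exp (2 * c) * (δ ^ 2 * X * L) * _
        ≤ 6 * C0 * Real.exp (2 * c) * (δ ^ 2 * X * L) * S :=
          mul_le_mul_of_nonneg_left hfin hpos
      _ = _ := by ring
  -- covering by two windows
  set F : ℂ → ℝ := fun ρ => mu π ρ * ((l * |ρ.re - 1 / 2|) ^ 2 *
      Real.exp (l * |ρ.re - 1 / 2|)) with hF
  have hF0 : ∀ ρ, 0 ≤ F ρ := fun ρ => mul_nonneg (mu_nonneg π ρ) (by positivity)
  set Z1 := ZF π (4 / 5 * X) (2 * (4 / 5 * X))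
  set Z2 := ZF π (3 / 2 * X) (2 * (3 / 2 * X))
  have hsub : ZF π (X + τ) (2 * X + τ) ⊆ Z1 ∪ Z2 := by
    intro ρ hρ
    rw [mem_ZF (by linarith)] at hρ
    obtain ⟨r1, r2, r3, r4, r5⟩ := hρ
    rw [Finset.mem_union]
    by_cases hcase : ρ.im < 2 * (4 / 5 * X)
    · left
      rw [mem_ZF (by linarith)]
      exact ⟨r1, r2, by linarith, hcase, r5⟩
    · right
      rw [mem_ZF (by linarith)]
      push Not at hcase
      exact ⟨r1, r2, by linarith, by linarith, r5⟩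
  have h1 : ∑ ρ ∈ ZF π (X + τ) (2 * X + τ), F ρ ≤ ∑ ρ ∈ Z1 ∪ Z2, F ρ :=
    Finset.sum_le_sum_of_subset_of_nonneg hsub fun ρ _ _ => hF0 ρ
  have h2 : ∑ ρ ∈ Z1 ∪ Z2, F ρ ≤ ∑ ρ ∈ Z1, F ρ + ∑ ρ ∈ Z2, F ρ := by
    rw [← Finset.sum_union_inter]
    have : 0 ≤ ∑ ρ ∈ Z1 ∩ Z2, F ρ := Finset.sum_nonneg fun ρ _ => hF0 ρ
    linarith
  have h3 := hwin (4 / 5 * X) le_rfl (by linarith)
  have h4 := hwin (3 / 2 * X) (by linarith) le_rfl
  have hX0 : 0 ≤ X := by linarith
  have h5 : 0 ≤ δ ^ 2 * X * L := by positivity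
  calc ∑ ρ ∈ ZF π (X + τ) (2 * X + τ), F ρ ≤ ∑ ρ ∈ Z1, F ρ + ∑ ρ ∈ Z2, F ρ := h1.trans h2
    _ ≤ 6 * C0 * Real.exp (2 * c) * S * (δ ^ 2 * X * L) +
        6 * C0 * Real.exp (2 * c) * S * (δ ^ 2 * X * L) := add_le_add h3 h4
    _ ≤ (12 * C0 * Real.exp (2 * c) * S + 1) * (δ ^ 2 * X * L) := by
        rw [add_mul, one_mul]
        linarith
    _ = (12 * C0 * Real.exp (2 * c) * S + 1) * δ ^ 2 * X * L := by ring

end Pool.Agent.H90.PP
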